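import Mathlib
import Pool.Agent.R332.Outer

/-!
# Every outerplanar graph has degenerate distance number at most two
-/

namespace Pool.Agent.Results.MP_aa6a81_co.AtMostTwo

open Polynomial Pool.Agent.R332.Outer

/-- `G` is outerplanar: its vertices can be placed at distinct points of a line so that, with all
edges drawn as semicircular arcs on one side of the line, no two edges cross (a one page book
embedding); arcs `a c` and `b d` cross exactly when their end points interleave. -/
def Outerplanar {V : Type*} (G : SimpleGraph V) : Prop :=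
  ∃ f : V → ℝ, Function.Injective f ∧
    ∀ a b c d : V, f a < f b → f b < f c → f c < f d → ¬ (G.Adj a c ∧ G.Adj b d)

/-- the set of edge lengths of the degenerate drawing `p` of `G` -/
def edgeLengths {V : Type*} (G : SimpleGraph V) (p : V → EuclideanSpace ℝ (Fin 2)) : Set ℝ :=
  {r | ∃ u v, G.Adj u v ∧ dist (p u) (p v) = r}

/-- the degenerate distance number of `G` -/
noncomputable def ddn {V : Type*} (G : SimpleGraph V) : ℕ :=
  sInf {k | ∃ p : V → EuclideanSpace ℝ (Fin 2), Function.Injective p ∧
    (edgeLengths G p).encard = k}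

/-- a transcendental number on the unit circle -/
theorem exists_unit : ∃ z : ℂ, ‖z‖ = 1 ∧ Transcendental ℤ z := by
  by_contra hcon
  push Not at hcon
  have key : ∀ t : ℝ, (1 + t * Complex.I) / (1 - t * Complex.I) ∈ {z : ℂ | IsAlgebraic ℤ z} := by
    intro t
    have h1 : ‖(1 + t * Complex.I) / (1 - t * Complex.I)‖ = 1 := by
      have h2 : (1 - t * Complex.I : ℂ) = (starRingEnd ℂ) (1 + t * Complex.I) := by
        simp [sub_eq_add_neg]
      have h3 : ‖(1 + t * Complex.I : ℂ)‖ ≠ 0 := by
        rw [norm_ne_zero_iff]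
        intro h
        have := congrArg Complex.re h
        simp at this
      rw [norm_div, h2, Complex.norm_conj, div_self h3]
    have := hcon _ h1
    rw [Transcendental, not_not] at this
    exact this
  have hc : {z : ℂ | IsAlgebraic ℤ z}.Countable := Algebraic.countable ℤ ℂ
  have hne : ∀ t : ℝ, (1 - t * Complex.I : ℂ) ≠ 0 := by
    intro t h
    have := congrArg Complex.re h
    simp at this
  have hinj : Function.Injective
      (fun t : ℝ => (1 + t * Complex.I) / (1 - t * Complex.I) : ℝ → ℂ) := by
    intro s t hst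
    have hst' : (1 + s * Complex.I) / (1 - s * Complex.I) =
      (1 + t * Complex.I) / (1 - t * Complex.I) := hst
    rw [div_eq_div_iff (hne s) (hne t)] at hst'
    have := congrArg Complex.im hst'
    simp at this
    linarith
  have h4 := hc.preimage_of_injOn (f := fun t : ℝ => (1 + t * Complex.I) / (1 - t * Complex.I))
    hinj.injOn
  have h5 : (fun t : ℝ => (1 + t * Complex.I) / (1 - t * Complex.I)) ⁻¹'
      {z : ℂ | IsAlgebraic ℤ z} = Set.univ := by
    ext t
    simp only [Set.mem_preimage, Set.mem_univ, iff_true]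
    exact key t
  rw [h5] at h4
  exact Cardinal.not_countable_real h4

/-- the length of an allowed difference -/
theorem norm_gen {z : ℂ} (hz : ‖z‖ = 1) {p : ℤ[X]} (hp : Gen p) :
    ‖aeval z p‖ = 1 ∨ ‖aeval z p‖ = ‖z - 1‖ := by
  obtain ⟨a, h | h | h | h⟩ := hp
  · left; rw [h]; simp [hz]
  · left; rw [h]; simp [hz]
  · right
    rw [h]
    have : aeval z (X ^ (a + 1) - X ^ a : ℤ[X]) = z ^ a * (z - 1) := by
      simp only [map_sub, map_pow, aeval_X]; ring
    rw [this, norm_mul, norm_pow, hz, one_pow, one_mul]
  · right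
    rw [h]
    have : aeval z (X ^ a - X ^ (a + 1) : ℤ[X]) = -(z ^ a * (z - 1)) := by
      simp only [map_sub, map_pow, aeval_X]; ring
    rw [this, norm_neg, norm_mul, norm_pow, hz, one_pow, one_mul]

/-- one pair of lengths works for all outerplanar graphs -/
theorem exists_drawing : ∃ d : ℝ, ∀ {V : Type*} [Finite V] (G : SimpleGraph V), Outerplanar G →
    ∃ p : V → EuclideanSpace ℝ (Fin 2), Function.Injective p ∧ edgeLengths G p ⊆ {1, d} := by
  obtain ⟨z, hz, ht⟩ := exists_unit
  refine ⟨‖z - 1‖, ?_⟩
  intro V _ G hG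
  classical
  obtain ⟨f, hf, hG⟩ := hG
  have := Fintype.ofFinite V
  -- the rank of a vertex
  let r : V → ℕ := fun v => (Finset.univ.filter fun u => f u < f v).card
  have hr : ∀ u v, f u < f v → r u < r v := by
    intro u v h
    refine Finset.card_lt_card ⟨fun x hx => ?_, fun hsub => ?_⟩
    · simp only [Finset.mem_filter, Finset.mem_univ, true_and] at hx ⊢
      exact hx.trans h
    · have := hsub (Finset.mem_filter.2 ⟨Finset.mem_univ u, h⟩)
      simp at this
  have hr' : ∀ u v, r u < r v → f u < f v := by
    intro u v h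
    rcases lt_trichotomy (f u) (f v) with h1 | h1 | h1
    · exact h1
    · rw [hf h1] at h; exact absurd h (lt_irrefl _)
    · exact absurd (hr v u h1) (by omega)
  have hrinj : Function.Injective r := by
    intro u v h
    rcases lt_trichotomy (f u) (f v) with h1 | h1 | h1
    · exact absurd (hr u v h1) (by omega)
    · exact hf h1
    · exact absurd (hr v u h1) (by omega)
  have hrle : ∀ v, r v ≤ Fintype.card V := fun v => Finset.card_le_univ _
  have hNC : NC (fun x y => ∃ u v, r u = x ∧ r v = y ∧ G.Adj u v) := by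
    refine ⟨?_, ?_, ?_⟩
    · rintro x y ⟨u, v, hu, hv, h⟩
      exact ⟨v, u, hv, hu, h.symm⟩
    · rintro x ⟨u, v, hu, hv, h⟩
      have := hrinj (hu.trans hv.symm)
      subst this
      exact G.irrefl h
    · rintro a b c d hab hbc hcd ⟨⟨u, v, hu, hv, h⟩, ⟨u', v', hu', hv', h'⟩⟩
      subst hu hv hu' hv'
      exact hG _ _ _ _ (hr' _ _ hab) (hr' _ _ hbc) (hr' _ _ hcd) ⟨h, h'⟩
  obtain ⟨w, hw, hwi⟩ := embed hNC (Fintype.card V)
  refine ⟨fun v => Complex.orthonormalBasisOneI.repr (aeval z (w (r v))), ?_, ?_⟩
  · intro u v huv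
    have h1 := Complex.orthonormalBasisOneI.repr.injective huv
    have h2 := (transcendental_iff_injective.1 ht) h1
    exact hrinj (hwi (hrle u) (hrle v) h2)
  · rintro _ ⟨u, v, huv, rfl⟩
    have h1 : dist (Complex.orthonormalBasisOneI.repr (aeval z (w (r u))))
        (Complex.orthonormalBasisOneI.repr (aeval z (w (r v)))) =
        ‖aeval z (w (r u) - w (r v))‖ := by
      rw [LinearIsometryEquiv.dist_map, dist_eq_norm, map_sub]
    rw [h1]
    have h2 := hw (r v) (hrle v) (r u) (hrle u) ⟨v, u, rfl, rfl, huv.symm⟩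
    rcases norm_gen hz h2 with h3 | h3
    · exact Or.inl h3
    · exact Or.inr h3

/-- **Every outerplanar graph has degenerate distance number at most two.** -/
theorem result {V : Type*} [Finite V] (G : SimpleGraph V) (hG : Outerplanar G) : ddn G ≤ 2 := by
  obtain ⟨d, hd⟩ := exists_drawing
  obtain ⟨p, hp, hl⟩ := hd G hG
  have h2 : (edgeLengths G p).encard ≤ 2 :=
    (Set.encard_le_encard hl).trans (Set.encard_insert_le _ _ |>.trans (by
      rw [Set.encard_singleton]; norm_num))
  have hfin : (edgeLengths G p).Finite :=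
    Set.finite_of_encard_le_coe (k := 2) (by exact_mod_cast h2)
  have h3 : (edgeLengths G p).encard = ((edgeLengths G p).ncard : ℕ∞) :=
    (hfin.cast_ncard_eq).symm
  have h4 : (edgeLengths G p).ncard ≤ 2 := by
    rw [h3] at h2
    exact_mod_cast h2
  have h5 : ddn G ≤ (edgeLengths G p).ncard := by
    unfold ddn
    exact Nat.sInf_le ⟨p, hp, h3⟩
  exact h5.trans h4

end Pool.Agent.Results.MP_aa6a81_co.AtMostTwo
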